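import Mathlib

set_option autoImplicit false

/-!
# No local bijections from dictator to parity with Lipschitz inverse

If a bijection `φ` of `{0,1}^n` maps the dictator function to the parity function, every output
coordinate of `φ` depends on at most `K` input coordinates and the inverse of `φ` is `L`-Lipschitz,
then `n ≤ 1 + K + ... + K ^ (L - 1)`.

Proof. Let `x = 0`. For every output coordinate `i`, changing `φ x` at `i` changes the preimage on a
set `Δ i` of at most `L` coordinates, and the first coordinate is in `Δ i`. Start with the set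
`D = {first}` and enlarge it. As `D` is nonempty, some output `c` differs for `x` and `x + D`. If
`i ≠ c`, then `φ (x + Δ i)` and `φ x` agree at `c`, so one of the `K` inputs on which the output `c`
depends is in `Δ i` and not in `D`. So there are few possibilities for `Δ i`, and `Δ i`
determines `i`.
-/

namespace Pool.Agent.Results.MP_5e3b67_co.NoLocalLipschitz

open Finset

/-- `φ` is a mapping from the dictator function to the parity function: it is a bijection of
`{0,1}^n` and the parity of `φ x` is the first coordinate of `x` (coordinates are `0, ..., n`). -/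
def MapsDicToXor {n : ℕ} (φ : (Fin (n + 1) → ZMod 2) ≃ (Fin (n + 1) → ZMod 2)) : Prop :=
  ∀ x, ∑ i, φ x i = x 0

/-- `φ` is `K`-local: every output coordinate is determined by at most `K` input coordinates. -/
def IsLocal {n : ℕ} (K : ℕ) (φ : (Fin n → ZMod 2) → (Fin n → ZMod 2)) : Prop :=
  ∀ i, ∃ S : Finset (Fin n), S.card ≤ K ∧ ∀ x y, (∀ j ∈ S, x j = y j) → φ x i = φ y i

/-- `ψ` is `L`-Lipschitz for the Hamming distance. -/
def IsLip {n : ℕ} (L : ℕ) (ψ : (Fin n → ZMod 2) → (Fin n → ZMod 2)) : Prop :=
  ∀ x y, hammingDist (ψ x) (ψ y) ≤ L * hammingDist x y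

lemma key {n K : ℕ} (f : Finset (Fin n) → Fin n → ZMod 2) (hf : Function.Injective f)
    (S : Fin n → Finset (Fin n)) (hS : ∀ c, (S c).card ≤ K)
    (hloc : ∀ c D D', (∀ j ∈ S c, (j ∈ D ↔ j ∈ D')) → f D c = f D' c)
    (Δ : Fin n → Finset (Fin n)) (hΔ : ∀ i c, c ≠ i → f (Δ i) c = f ∅ c)
    (hinj : Function.Injective Δ) (t : ℕ) :
    ∀ D : Finset (Fin n), D.Nonempty →
      (univ.filter (fun i => D ⊆ Δ i ∧ (Δ i).card ≤ D.card + t)).card ≤
        ∑ s ∈ range (t + 1), K ^ s := by
  classical
  induction t with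
  | zero =>
    intro D _
    simp only [zero_add, range_one, sum_singleton, pow_zero, add_zero]
    rw [Finset.card_le_one]
    intro a ha b hb
    rw [mem_filter] at ha hb
    have h1 : D = Δ a := Finset.eq_of_subset_of_card_le ha.2.1 ha.2.2
    have h2 : D = Δ b := Finset.eq_of_subset_of_card_le hb.2.1 hb.2.2
    exact hinj (h1.symm.trans h2)
  | succ t ih =>
    intro D hD
    have h1 : f D ≠ f ∅ := fun h => hD.ne_empty (hf h)
    obtain ⟨c, hc⟩ := Function.ne_iff.1 h1
    have hsub : univ.filter (fun i => D ⊆ Δ i ∧ (Δ i).card ≤ D.card + (t + 1)) ⊆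
        {c} ∪ (S c \ D).biUnion fun j =>
          univ.filter (fun i => insert j D ⊆ Δ i ∧ (Δ i).card ≤ (insert j D).card + t) := by
      intro i hi
      rw [mem_filter] at hi
      rw [mem_union, mem_singleton, mem_biUnion]
      by_cases hic : i = c
      · exact Or.inl hic
      · right
        have h2 : f (Δ i) c ≠ f D c := by
          rw [hΔ i c (Ne.symm hic)]
          exact hc.symm
        have h3 : ¬ ∀ j ∈ S c, (j ∈ Δ i ↔ j ∈ D) := fun h => h2 (hloc c _ _ h)
        push Not at h3
        obtain ⟨j, hj, h4⟩ := h3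
        have h5 : j ∈ Δ i ∧ j ∉ D := by
          rcases h4 with h4 | h4
          · exact h4
          · exact absurd (hi.2.1 h4.2) h4.1
        refine ⟨j, mem_sdiff.2 ⟨hj, h5.2⟩, ?_⟩
        rw [mem_filter, card_insert_of_notMem h5.2]
        refine ⟨mem_univ _, ?_, by omega⟩
        exact insert_subset_iff.2 ⟨h5.1, hi.2.1⟩
    calc (univ.filter (fun i => D ⊆ Δ i ∧ (Δ i).card ≤ D.card + (t + 1))).card
        ≤ _ := card_le_card hsub
      _ ≤ 1 + ∑ j ∈ S c \ D, (univ.filter
            (fun i => insert j D ⊆ Δ i ∧ (Δ i).card ≤ (insert j D).card + t)).card := by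
          refine (card_union_le _ _).trans ?_
          rw [card_singleton]
          exact Nat.add_le_add_left card_biUnion_le _
      _ ≤ 1 + ∑ j ∈ S c \ D, ∑ s ∈ range (t + 1), K ^ s := by
          apply Nat.add_le_add_left
          exact sum_le_sum fun j _ => ih _ (insert_nonempty _ _)
      _ ≤ 1 + K * ∑ s ∈ range (t + 1), K ^ s := by
          rw [sum_const, smul_eq_mul]
          apply Nat.add_le_add_left
          exact Nat.mul_le_mul_right _ ((card_le_card sdiff_subset).trans (hS c))
      _ = ∑ s ∈ range (t + 1 + 1), K ^ s := by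
          rw [sum_range_succ' _ (t + 1), mul_sum, pow_zero, add_comm]
          simp only [pow_succ']

/-- the 0-1 vector of a set -/
def vec {n : ℕ} (D : Finset (Fin n)) : Fin n → ZMod 2 := fun j => if j ∈ D then 1 else 0

lemma vec_supp {n : ℕ} (v : Fin n → ZMod 2) : vec (univ.filter (fun j => v j ≠ 0)) = v := by
  funext j
  have h : ∀ a : ZMod 2, (if a ≠ 0 then (1 : ZMod 2) else 0) = a := by decide
  simp only [vec, mem_filter, mem_univ, true_and]
  exact h _

lemma vec_inj {n : ℕ} : Function.Injective (vec (n := n)) := by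
  intro D D' h
  ext j
  have := congrFun h j
  simp only [vec] at this
  by_cases h1 : j ∈ D <;> by_cases h2 : j ∈ D' <;> simp_all

/-- (1) If a bijection `φ` of `{0,1}^(n+1)` maps the dictator function to the parity function, `φ`
is `K`-local and the inverse of `φ` is `L`-Lipschitz, then `n + 1 ≤ ∑_{s < L} K ^ s`.
(2) Hence there are no constants `K`, `L` such that for every dimension there is a `K`-local mapping
from the dictator to the parity function whose inverse is `L`-Lipschitz. -/
theorem result :
    (∀ (n K L : ℕ) (φ : (Fin (n + 1) → ZMod 2) ≃ (Fin (n + 1) → ZMod 2)),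
      MapsDicToXor φ → IsLocal K φ → IsLip L φ.symm → n + 1 ≤ ∑ s ∈ range L, K ^ s) ∧
    ¬ ∃ K L : ℕ, ∀ n : ℕ, ∃ φ : (Fin (n + 1) → ZMod 2) ≃ (Fin (n + 1) → ZMod 2),
      MapsDicToXor φ ∧ IsLocal K φ ∧ IsLip L φ.symm := by
  classical
  have main : ∀ (n K L : ℕ) (φ : (Fin (n + 1) → ZMod 2) ≃ (Fin (n + 1) → ZMod 2)),
      MapsDicToXor φ → IsLocal K φ → IsLip L φ.symm → n + 1 ≤ ∑ s ∈ range L, K ^ s := by
    intro n K L φ hφ hloc hlip
    choose S hS1 hS2 using hloc
    set f : Finset (Fin (n + 1)) → Fin (n + 1) → ZMod 2 := fun D => φ (vec D) with hfdef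
    have hf : Function.Injective f := φ.injective.comp vec_inj
    set Δ : Fin (n + 1) → Finset (Fin (n + 1)) := fun i =>
      univ.filter (fun j => φ.symm (f ∅ + Pi.single i 1) j ≠ 0) with hΔdef
    have hfΔ : ∀ i, f (Δ i) = f ∅ + Pi.single i 1 := by
      intro i
      simp only [hfdef, hΔdef]
      rw [vec_supp, Equiv.apply_symm_apply]
    have hemp : vec (∅ : Finset (Fin (n + 1))) = 0 := by
      funext j
      simp [vec]
    have hcard : ∀ i, (Δ i).card ≤ L := by
      intro i
      have h1 := hlip (f ∅ + Pi.single i 1) (f ∅)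
      have h2 : hammingDist (f ∅ + Pi.single i 1) (f ∅) ≤ 1 := by
        rw [hammingDist]
        refine (card_le_card (t := {i}) ?_).trans (card_singleton i).le
        intro j hj
        rw [mem_filter] at hj
        rw [mem_singleton]
        by_contra hji
        apply hj.2
        rw [Pi.add_apply, Pi.single_eq_of_ne hji, add_zero]
      have h3 : φ.symm (f ∅) = 0 := by
        simp only [hfdef]
        rw [Equiv.symm_apply_apply, hemp]
      rw [h3] at h1
      calc (Δ i).card = hammingDist (φ.symm (f ∅ + Pi.single i 1)) 0 := by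
            simp only [hΔdef, hammingDist, Pi.zero_apply]
        _ ≤ L * 1 := h1.trans (Nat.mul_le_mul_left _ h2)
        _ = L := mul_one L
    have hzero : ∀ i, (0 : Fin (n + 1)) ∈ Δ i := by
      intro i
      have h1 : ∑ c, f (Δ i) c = vec (Δ i) 0 := hφ _
      have h2 : ∑ c, f ∅ c = vec (∅ : Finset (Fin (n + 1))) 0 := hφ _
      rw [hfΔ] at h1
      simp only [Pi.add_apply, sum_add_distrib, h2, hemp, Pi.zero_apply, zero_add] at h1
      have h3 : ∑ c, (Pi.single i (1 : ZMod 2) : Fin (n + 1) → ZMod 2) c = 1 := by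
        rw [Finset.sum_pi_single']
        simp
      rw [h3] at h1
      by_contra h4
      simp only [vec, if_neg h4] at h1
      exact absurd h1 (by decide)
    have hΔ : ∀ i c, c ≠ i → f (Δ i) c = f ∅ c := by
      intro i c hci
      rw [hfΔ, Pi.add_apply, Pi.single_eq_of_ne hci, add_zero]
    have hinj : Function.Injective Δ := by
      intro i j hij
      have h1 : f ∅ + Pi.single i 1 = f ∅ + Pi.single j 1 := by rw [← hfΔ, ← hfΔ, hij]
      have h2 := add_left_cancel h1
      by_contra hne
      have h3 := congrFun h2 i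
      rw [Pi.single_eq_same, Pi.single_eq_of_ne hne] at h3
      exact absurd h3 (by decide)
    have hL : 1 ≤ L := le_trans (Finset.card_pos.2 ⟨0, hzero 0⟩) (hcard 0)
    obtain ⟨t, rfl⟩ : ∃ t, L = t + 1 := ⟨L - 1, by omega⟩
    have h := key f hf S hS1 (fun c D D' h => hS2 c _ _ (fun j hj => by
      simp only [vec]
      by_cases h1 : j ∈ D
      · rw [if_pos h1, if_pos ((h j hj).1 h1)]
      · rw [if_neg h1, if_neg (fun h2 => h1 ((h j hj).2 h2))])) Δ hΔ hinj t {0}
      (singleton_nonempty 0)
    have h2 : univ.filter (fun i => {0} ⊆ Δ i ∧ (Δ i).card ≤ ({0} : Finset (Fin (n + 1))).card + t)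
        = univ := by
      rw [Finset.filter_eq_self]
      intro i _
      refine ⟨singleton_subset_iff.2 (hzero i), ?_⟩
      rw [card_singleton]
      have := hcard i
      omega
    rw [h2, card_univ, Fintype.card_fin] at h
    exact h
  refine ⟨main, ?_⟩
  rintro ⟨K, L, h⟩
  obtain ⟨φ, h1, h2, h3⟩ := h (∑ s ∈ range L, K ^ s)
  have := main _ K L φ h1 h2 h3
  omega

end Pool.Agent.Results.MP_5e3b67_co.NoLocalLipschitz
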